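import Pool.Agent.H36.TopK

open Pool.Agent.H36.TopK

theorem Pool.Agent.Results.MP_1bbcfd_lc.OracleHard.result :
    ¬ ∃ (Alg : ∀ m : ℕ, (Fin m → ℚ) → ℕ → QTree (Fin m)) (p : Polynomial ℕ),
      ∀ (m : ℕ) (M₁ M₂ : Matroid (Fin m)) (w : Fin m → ℚ) (k : ℕ),
        M₁.E = Set.univ → M₂.E = Set.univ → (∀ e, 0 ≤ w e) →
        (∃ B, M₁.IsBase B ∧ M₂.IsBase B ∧ k ≤ B.ncard) →
        ((Alg m w k).run M₁ M₂).2 ≤ p.eval (m + bitSize w) ∧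
          Optimal M₁ M₂ w k ((Alg m w k).run M₁ M₂).1 :=
  main
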